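import Pool.Agent.Helper29.TW.Tame

/-!
# The tree-width of the models of a sentence: bounded or at least an iterated logarithm
-/

set_option autoImplicit false

namespace Pool.Agent.Helper20.Gap

open FirstOrder FirstOrder.Language Pool.Agent.Helper20.Spectra Pool.Agent.Helper20.OP
  Pool.Agent.Helper29.TD Pool.Agent.Helper29.TW Filter

variable {S : Type} {ar : S → ℕ}

theorem not_linked_tree [Finite S] (w : ℕ → ℕ) (hw : ∀ d, ∀ᶠ n in atTop, E d (w n) ≤ n)
    (φ : (RelLang S ar).Sentence) (N1 : ℕ)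
    (hφ : ∀ (n : ℕ) (I : Interp S ar (Fin n)), N1 ≤ n → Sat I φ → TwLe I (w n)) :
    ∃ k, 1 ≤ k ∧ ∀ (n : ℕ) (I : Interp S ar (Fin n)), 1 ≤ n → Sat I φ →
      ∀ W : Set (Fin n), ¬ Linked I k W := by
  classical
  obtain ⟨q, hq⟩ := sat_ty φ
  obtain ⟨F, ⟨c, hF⟩, hdown⟩ := pump_down (S := S) (ar := ar) q
  obtain ⟨N0', hN0'⟩ := eventually_atTop.1 (hw (c + 4))
  obtain ⟨N0, hN0, hN01⟩ : ∃ N0, (∀ n, N0 ≤ n → E (c + 4) (w n) ≤ n) ∧ N1 ≤ N0 :=
    ⟨N0' + N1, fun n hn => hN0' n (by omega), by omega⟩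
  by_contra hcon
  push Not at hcon
  obtain ⟨n, I, hn, hI, W₀, hW₀⟩ := hcon (N0 + 1) (by omega)
  have hle : ∀ (k : ℕ) (W : Set (Fin n)), Linked I k W → 5 * k ≤ n := by
    intro k W h
    rw [← h.1]
    have := Set.ncard_le_card W
    simpa using this
  let Q : ℕ → Prop := fun k => ∃ W : Set (Fin n), Linked I k W
  have h0 : Q (N0 + 1) := ⟨W₀, hW₀⟩
  have hb : N0 + 1 ≤ n := by
    have := hle _ _ hW₀
    omega
  obtain ⟨k, hk, hkQ, hmax⟩ : ∃ k, N0 + 1 ≤ k ∧ Q k ∧ ¬ Q (k + 1) := by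
    refine ⟨Nat.findGreatest Q n, Nat.le_findGreatest hb h0, Nat.findGreatest_spec hb h0, ?_⟩
    intro h1
    obtain ⟨W, hW⟩ := h1
    have h2 := hle _ _ hW
    have h3 : Nat.findGreatest Q n + 1 ≤ Nat.findGreatest Q n :=
      Nat.le_findGreatest (by omega) ⟨W, hW⟩
    omega
  obtain ⟨W, hW⟩ := hkQ
  obtain ⟨C, hC⟩ := up I (k + 1) (by omega) (fun W' h => hmax ⟨W', h⟩)
  obtain ⟨V, J, e, hG, hJ⟩ := gen_of_dec (by omega) hC
  have hinn : inn J = fun s v => I s (fun i => e.symm (v i)) := by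
    funext s v
    apply propext
    unfold inn
    rw [hJ]
    constructor
    · rintro ⟨u, hu, h1⟩
      have h2 : (fun i => e.symm (v i)) = u := by
        funext i
        have h3 := congrFun h1 i
        rw [Sum.inr.injEq] at h3
        rw [h3, Equiv.symm_apply_apply]
      rw [h2]
      exact hu
    · intro hu
      exact ⟨_, hu, by simp⟩
  have hL : Linked (inn J) k (e '' W) := by
    rw [hinn]
    exact hW.map e
  obtain ⟨V', J', W', hG', hty, hL', hcard⟩ := hdown k V J _ hG hL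
  have := hG'.finite
  have hsat : Sat (inn J') φ := (hq _ _ _ _ _ hty).2 ((sat_inn φ e hJ).1 hI)
  have hfin := exists_fin J' φ hsat
  have hLfin := hL'.map (Finite.equivFin V')
  have hn' : 5 * k ≤ Nat.card V' := by
    rw [← hL'.1]
    exact Set.ncard_le_card W'
  have htw := hφ _ _ (by omega) hfin
  have hkw : k ≤ w (Nat.card V') := by
    by_contra hlt
    push Not at hlt
    obtain ⟨D⟩ := TreeDec.mono (k' := k) (by omega) htw
    exact low (by omega) D _ hLfin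
  have h1 := hN0 (Nat.card V') (by omega)
  have h2 : E (c + 4) k ≤ E (c + 4) (w (Nat.card V')) := E_mono _ hkw
  have h3 : E (c + 3) k < E (c + 4) k := E_succ_le _ _
  have h4 : E c (k + 2) ≤ E (c + 3) k := by
    rw [← E_add]
    apply E_mono
    have a1 : k < E 1 k := E_succ_le 0 k
    have a2 : E 1 k < E 2 k := E_succ_le 1 k
    have a3 : E 2 k < E 3 k := E_succ_le 2 k
    omega
  have h5 := hF k
  omega

theorem bounded_tree [Finite S] (w : ℕ → ℕ) (hw : ∀ d, ∀ᶠ n in atTop, E d (w n) ≤ n)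
    (φ : (RelLang S ar).Sentence) (N1 : ℕ)
    (h1 : ∀ (n : ℕ) (I : Interp S ar (Fin n)), N1 ≤ n → Sat I φ → TwLe I (w n)) :
    (∃ L, ∀ (n : ℕ) (I : Interp S ar (Fin n)), 1 ≤ n → Sat I φ → TwLe I L) ∧
      UltPeriodic {n : ℕ | 1 ≤ n ∧ ∃ I : Interp S ar (Fin n), Sat I φ} := by
  classical
  obtain ⟨k, hk, hnl⟩ := not_linked_tree w hw φ N1 h1
  refine ⟨⟨6 * k, ?_⟩, ?_⟩
  · intro n I hn hI
    obtain ⟨C, hC⟩ := up I k hk (hnl n I hn hI)
    exact TreeDec.mono (k' := 6 * k + 1) (by omega) hC.treeDec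
  · obtain ⟨q, hq⟩ := sat_ty φ
    obtain ⟨p, N, hp, hup⟩ := pump_up (S := S) (ar := ar) q (6 * k)
    refine ultPeriodic_of_add hp (N := N) (fun n hn hA => ?_)
    obtain ⟨hn1, I, hI⟩ := hA
    obtain ⟨C, hC⟩ := up I k hk (hnl n I hn1 hI)
    obtain ⟨V, J, e, hG, hJ⟩ := gen_of_dec (by omega) hC
    have hcV : Nat.card V = n := by
      rw [← Nat.card_congr e, Nat.card_fin]
    obtain ⟨V', J', hG', hty, hc'⟩ := hup V J hG (by rw [hcV]; exact hn)
    have := hG'.finite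
    have hsat : Sat (inn J') φ := (hq _ _ _ _ _ hty).2 ((sat_inn φ e hJ).1 hI)
    have hfin := exists_fin J' φ hsat
    rw [hcV] at hc'
    refine ⟨by omega, ?_⟩
    rw [← hc']
    exact ⟨_, hfin⟩

end Pool.Agent.Helper20.Gap
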