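import Pool.Agent.Helper20.Gap.TD
import Pool.Agent.Helper20.Gap.TW
import Pool.Agent.Helper20.Gap.CW
import Pool.Agent.Helper29.CW.All

/-!
# The gap theorem for the width of the models of a first-order sentence
-/

set_option autoImplicit false

namespace Pool.Agent.Helper20.Gap

open FirstOrder FirstOrder.Language Pool.Agent.Helper20.Spectra Pool.Agent.Helper20.OP
  Pool.Agent.Helper29.TD Pool.Agent.Helper29.TW Pool.Agent.Helper29.CW Filter

variable {S : Type} {ar : S → ℕ}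

lemma expr_mono {k k' : ℕ} (hk : k ≤ k') {V : Type} {J : Interp S ar V} {l : V → Fin k}
    (h : Expr S ar k V J l) : Expr S ar k' V J (fun x => Fin.castLE hk (l x)) := by
  classical
  induction h with
  | point J a => exact Expr.point J _
  | union V₁ V₂ J₁ J₂ l₁ l₂ _ _ ih₁ ih₂ =>
    have h1 := Expr.union V₁ V₂ J₁ J₂ _ _ ih₁ ih₂
    convert h1 using 1
    funext x
    rcases x with x | x <;> rfl
  | rename V J l r _ ih =>
    have h1 := Expr.rename V J _ (fun x : Fin k' => if h : x.1 < k then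
      Fin.castLE hk (r ⟨x.1, h⟩) else x) ih
    convert h1 using 1
    funext x
    simp
  | add V J l R _ ih =>
    have h1 := Expr.add V J _ (fun s u => ∃ u₀ : Fin (ar s) → Fin k, R s u₀ ∧
      u = fun i => Fin.castLE hk (u₀ i)) ih
    convert h1 using 1
    funext s v
    refine propext (or_congr Iff.rfl ?_)
    constructor
    · rintro ⟨h2, h3⟩
      exact ⟨fun i j hij => h2 (Fin.castLE_injective hk hij), _, h3, rfl⟩
    · rintro ⟨h2, u₀, h3, h4⟩
      have h5 : u₀ = fun i => l (v i) := by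
        funext i
        exact Fin.castLE_injective hk (congrFun h4 i).symm
      rw [← h5]
      refine ⟨?_, h3⟩
      intro i j hij
      apply h2
      show Fin.castLE hk (l (v i)) = Fin.castLE hk (l (v j))
      rw [show l (v i) = u₀ i from (congrFun h5 i).symm,
        show l (v j) = u₀ j from (congrFun h5 j).symm]
      exact congrArg _ hij

lemma WidthLe.mono {M : Type} {μ : Width} {I : Interp S ar M} {k k' : ℕ} (hk : k ≤ k')
    (h : WidthLe μ I k) : WidthLe μ I k' := by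
  cases μ with
  | path => exact fun l p hp => (h l p hp).trans hk
  | tree => exact TreeDec.mono (by omega) h
  | clique =>
    obtain ⟨V, J, l, e, h1, h2⟩ := h
    exact ⟨V, J, _, e, expr_mono hk h1, h2⟩

lemma E_id_le (d m : ℕ) : m ≤ E d m := by
  induction d with
  | zero => exact le_rfl
  | succ d ih => exact ih.trans (E_succ_le d m).le

theorem bounded_width [Finite S] (μ : Width) (har : μ = Width.clique → ∀ s, ar s ≤ 2) (w : ℕ → ℕ)
    (hw : ∀ d, ∀ᶠ n in atTop, E d (w n) ≤ n) (φ : (RelLang S ar).Sentence) (N1 : ℕ)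
    (h1 : ∀ (n : ℕ) (I : Interp S ar (Fin n)), N1 ≤ n → Sat I φ → WidthLe μ I (w n)) :
    (∃ L, ∀ (n : ℕ) (I : Interp S ar (Fin n)), 1 ≤ n → Sat I φ → WidthLe μ I L) ∧
      UltPeriodic {n : ℕ | 1 ≤ n ∧ ∃ I : Interp S ar (Fin n), Sat I φ} := by
  cases μ with
  | path =>
    obtain ⟨L, hL⟩ := bounded_path w hw φ N1 h1
    exact ⟨⟨L, hL⟩, ult_path φ L hL⟩
  | tree => exact bounded_tree w hw φ N1 h1
  | clique => exact bounded_clique (har rfl) w hw φ N1 h1

/-- the gap theorem -/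
theorem width_gap [Finite S] (μ : Width) (har : μ = Width.clique → ∀ s, ar s ≤ 2)
    (φ : (RelLang S ar).Sentence) :
    ((∃ L, ∀ (n : ℕ) (I : Interp S ar (Fin n)), 1 ≤ n → Sat I φ → WidthLe μ I L) ∧
      UltPeriodic {n : ℕ | 1 ≤ n ∧ ∃ I : Interp S ar (Fin n), Sat I φ}) ∨
    ∃ d, ∀ N, ∃ n, N ≤ n ∧ ∃ I : Interp S ar (Fin n), Sat I φ ∧
      ∀ t, WidthLe μ I t → n < E d t := by
  classical
  by_contra hcon
  push Not at hcon
  obtain ⟨hcon1, hcon2⟩ := hcon
  -- for every `d` the models with many elements have small width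
  have h0 : ∀ d, ∃ N, ∀ n, N ≤ n → ∃ t, E d t ≤ n ∧
      ∀ I : Interp S ar (Fin n), Sat I φ → WidthLe μ I t := by
    intro d
    obtain ⟨N, hN⟩ := hcon2 d
    refine ⟨N + E d 0, fun n hn => ?_⟩
    have hb : ∀ t, E d t ≤ n → t ≤ n := fun t ht => (E_id_le d t).trans ht
    have hs := Nat.findGreatest_spec (P := fun t => E d t ≤ n) (Nat.zero_le n) (by
      show E d 0 ≤ n
      omega)
    refine ⟨Nat.findGreatest (fun t => E d t ≤ n) n, hs, fun I hI => ?_⟩
    obtain ⟨t, ht1, ht2⟩ := hN n (by omega) I hI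
    exact WidthLe.mono (Nat.le_findGreatest (hb t ht2) ht2) ht1
  obtain ⟨N1, hN1⟩ := h0 0
  let w : ℕ → ℕ := fun n => sInf {t | ∀ I : Interp S ar (Fin n), Sat I φ → WidthLe μ I t}
  have hw : ∀ d, ∀ᶠ n in atTop, E d (w n) ≤ n := by
    intro d
    obtain ⟨N, hN⟩ := h0 d
    refine eventually_atTop.2 ⟨N, fun n hn => ?_⟩
    obtain ⟨t, ht1, ht2⟩ := hN n hn
    have ht3 : t ∈ {t | ∀ I : Interp S ar (Fin n), Sat I φ → WidthLe μ I t} := ht2
    exact (E_mono d (Nat.sInf_le ht3)).trans ht1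
  have hw1 : ∀ (n : ℕ) (I : Interp S ar (Fin n)), N1 ≤ n → Sat I φ → WidthLe μ I (w n) := by
    intro n I hn hI
    obtain ⟨t, _, ht2⟩ := hN1 n hn
    have h2 : w n ∈ {t | ∀ I : Interp S ar (Fin n), Sat I φ → WidthLe μ I t} :=
      Nat.sInf_mem ⟨t, ht2⟩
    exact h2 I hI
  obtain ⟨h2, h3⟩ := bounded_width μ har w hw φ N1 hw1
  exact hcon1 h2 h3

theorem gap_main (μ : Width) :
    (∀ (S : Type) (_ : Finite S) (ar : S → ℕ) (φ : (RelLang S ar).Sentence),
      (μ = Width.clique → ∀ s, ar s ≤ 2) →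
      ((∃ L, ∀ (n : ℕ) (I : Interp S ar (Fin n)), 1 ≤ n → Sat I φ → WidthLe μ I L) ∧
        UltPeriodic {n : ℕ | 1 ≤ n ∧ ∃ I : Interp S ar (Fin n), Sat I φ}) ∨
      ∃ d, ∀ N, ∃ n, N ≤ n ∧ ∃ I : Interp S ar (Fin n), Sat I φ ∧
        ∀ t, WidthLe μ I t → n < E d t) ∧
    ∀ w : ℕ → ℕ,
      ((∃ d, ∀ᶠ n in atTop, n ≤ E d (w n)) →
        ((∀ A : Set ℕ, WidthSpectrum μ w A → IsRudimentary A) ↔
          ∀ A : Set ℕ, IsSpectrum A ↔ (IsRudimentary A ∧ 0 ∉ A))) ∧
      ((∀ d, ∀ᶠ n in atTop, E d (w n) ≤ n) →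
        ∀ A : Set ℕ, WidthSpectrum μ w A → UltPeriodic A ∧
          ∃ L, WidthSpectrum μ (fun _ => L) A) :=
  ⟨fun _ _ _ φ har => width_gap μ har φ, fun w => width_threshold μ w⟩

end Pool.Agent.Helper20.Gap
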