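import Pool.Agent.Helper29.TD.Tame

/-!
# The longest path in the models of a sentence: bounded or at least an iterated logarithm
-/

set_option autoImplicit false

namespace Pool.Agent.Helper20.Gap

open FirstOrder FirstOrder.Language Pool.Agent.Helper20.Spectra Pool.Agent.Helper20.OP
  Pool.Agent.Helper29.TD Filter

variable {S : Type} {ar : S → ℕ}

theorem bounded_path [Finite S] (w : ℕ → ℕ) (hw : ∀ d, ∀ᶠ n in atTop, E d (w n) ≤ n)
    (φ : (RelLang S ar).Sentence) (N1 : ℕ)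
    (h1 : ∀ (n : ℕ) (I : Interp S ar (Fin n)), N1 ≤ n → Sat I φ → PathLe I (w n)) :
    ∃ L, ∀ (n : ℕ) (I : Interp S ar (Fin n)), 1 ≤ n → Sat I φ → PathLe I L := by
  by_contra hb
  push Not at hb
  obtain ⟨d, hd⟩ := gap φ
  obtain ⟨N0, hN0⟩ := eventually_atTop.1 (hw (d + 1))
  obtain ⟨n, I, hn, hI, hp⟩ := hb (N0 + N1 + 2)
  obtain ⟨W, p, hLW, hpp, hW⟩ := exists_longest hp
  obtain ⟨n', I', p', hI', hp', hn'⟩ := hd n I W p hI hW hpp (by omega)
  have hWn : W ≤ n' := by simpa using Fintype.card_le_of_injective p' hp'.1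
  have h3 := h1 n' I' (by omega) hI' W p' hp'
  have h4 := hN0 n' (by omega)
  have h5 : E d W ≤ E d (w n') := E_mono d h3
  have h6 := E_succ_le d (w n')
  omega

theorem ult_path [Finite S] (φ : (RelLang S ar).Sentence) (L : ℕ)
    (hL : ∀ (n : ℕ) (I : Interp S ar (Fin n)), 1 ≤ n → Sat I φ → PathLe I L) :
    UltPeriodic {n : ℕ | 1 ≤ n ∧ ∃ I : Interp S ar (Fin n), Sat I φ} := by
  obtain ⟨p, n0, hp, hpump⟩ := pump φ L
  refine ultPeriodic_of_add hp (N := n0) (fun n hn hA => ?_)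
  obtain ⟨hn1, I, hI⟩ := hA
  exact ⟨by omega, hpump n hn I hI (hL n I hn1 hI)⟩

end Pool.Agent.Helper20.Gap
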